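import Pool.Agent.Q60.D3H.StmC

/-!
# Project D3H, job C6 AFINE: orbits of primitive type
-/

set_option linter.unusedSectionVars false

namespace Pool.Agent.Q14.D3H

open Module Pool.Agent.W547.LD Pool.Agent.W547.LD.Comb Pool.Agent.Q60.D3G Pool.Agent.Q60.D3H

section
variable {G : Type} [Group G] [Fintype G]

/-- The elements which fix all pairs. -/
def CC (Q : Set (Set G)) : Subgroup G where
  carrier := {h | ∀ S ∈ Q, tr h S = S ∨ tr h S = Sᶜ}
  one_mem' := fun S _ => Or.inl (tr_one S)
  mul_mem' := fun {a b} ha hb S hS => by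
    rw [← tr_tr]
    rcases hb S hS with h | h
    · rw [h]
      exact ha S hS
    · rw [h, tr_compl]
      rcases ha S hS with h' | h'
      · right; rw [h']
      · left; rw [h', compl_compl]
  inv_mem' := fun {a} ha S hS => by
    rcases ha S hS with h | h
    · left
      conv_lhs => rw [← h]
      exact tr_inv_tr a S
    · right
      have h1 : tr a Sᶜ = S := by rw [tr_compl, h, compl_compl]
      conv_lhs => rw [← h1]
      exact tr_inv_tr a Sᶜ

theorem mem_CC {Q : Set (Set G)} {h : G} : h ∈ CC Q ↔ ∀ S ∈ Q, tr h S = S ∨ tr h S = Sᶜ := Iff.rfl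

/-- conjugation -/
theorem tr_conj (h g : G) (S : Set G) : tr h (tr g S) = tr g (tr (g⁻¹ * h * g) S) := by
  rw [tr_tr, tr_tr]
  congr 1
  group

theorem conj_mem {Q : Set (Set G)} (hQ : Stable Q) {k : G} (hk : k ∈ CC Q) (g : G) :
    g⁻¹ * k * g ∈ CC Q := by
  intro S hS
  have h1 : tr (g⁻¹ * k * g) S = tr g⁻¹ (tr k (tr g S)) := by
    rw [tr_tr, tr_tr, mul_assoc]
  rw [h1]
  rcases hk (tr g S) (hQ g S hS) with h | h
  · left
    rw [h, tr_inv_tr]
  · right
    rw [h, tr_compl, tr_inv_tr]

open Classical in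
/-- the sign -/
noncomputable def sgn (h : G) (S : Set G) : ℚ := if tr h S = S then 1 else -1

theorem sgn_fix {h : G} {S : Set G} (e : tr h S = S) : sgn h S = 1 := if_pos e

theorem sgn_flip {h : G} {S : Set G} (e : tr h S = Sᶜ) : sgn h S = -1 := by
  unfold sgn
  rw [if_neg]
  rw [e]
  exact fun h' => ne_compl S h'.symm

theorem rtr_sgn {Q : Set (Set G)} {h : G} (hh : h ∈ CC Q) {S : Set G} (hS : S ∈ Q) :
    rtr h (eps S) = sgn h S • eps S := by
  rw [rtr_eps]
  rcases hh S hS with e | e
  · rw [sgn_fix e, e, one_smul]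
  · rw [sgn_flip e, e, eps_compl', neg_smul, one_smul]

theorem sgn_mul {Q : Set (Set G)} {h g : G} (hh : h ∈ CC Q) (hg : g ∈ CC Q) {S : Set G}
    (hS : S ∈ Q) : sgn (h * g) S = sgn h S * sgn g S := by
  rcases hg S hS with e | e
  · rw [sgn_fix e, mul_one]
    have h1 : tr (h * g) S = tr h S := by rw [← tr_tr, e]
    unfold sgn
    rw [h1]
  · rw [sgn_flip e]
    have h1 : tr (h * g) S = (tr h S)ᶜ := by rw [← tr_tr, e, tr_compl]
    rcases hh S hS with e' | e'
    · rw [sgn_fix e', sgn_flip (by rw [h1, e'])]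
      norm_num
    · rw [sgn_flip e', sgn_fix (by rw [h1, e', compl_compl])]
      norm_num

theorem sgn_compl (h : G) (S : Set G) : sgn h Sᶜ = sgn h S := by
  unfold sgn
  rw [tr_compl]
  congr 1
  rw [compl_inj_iff]

theorem sgn_sq (h : G) (S : Set G) : sgn h S * sgn h S = 1 := by
  unfold sgn
  split_ifs <;> norm_num

variable {c : G} {Q : Set (Set G)}

/-- the signs are different for different pairs -/
theorem sep (hQ : Stable Q) (ht : Trans Q)
    (hmax : ∀ S ∈ Q, ∀ H : Subgroup G, (∀ τ, tr τ S = S ∨ tr τ S = Sᶜ → τ ∈ H) →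
      (∀ τ ∈ H, tr τ S = S ∨ tr τ S = Sᶜ) ∨ H = ⊤)
    (hex : ∃ h, (∀ S ∈ Q, tr h S = S ∨ tr h S = Sᶜ) ∧ (∃ S ∈ Q, tr h S = S) ∧
      ∃ S ∈ Q, tr h S = Sᶜ) {S T : Set G} (hS : S ∈ Q) (hT : T ∈ Q) (h1 : T ≠ S) (h2 : T ≠ Sᶜ) :
    ∃ h ∈ CC Q, ¬ (tr h S = S ↔ tr h T = T) := by
  by_contra hcon
  push Not at hcon
  let H : Subgroup G :=
    { carrier := {g | ∀ h ∈ CC Q, (tr h S = S ↔ tr h (tr g S) = tr g S)}
      one_mem' := fun h _ => by rw [tr_one]
      mul_mem' := fun {a b} ha hb h hh => by
        rw [ha h hh, ← tr_tr, tr_conj h a S, tr_conj h a (tr b S)]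
        have e1 := hb _ (conj_mem hQ hh a)
        constructor
        · intro h3
          rw [e1.1 ((tr_injective a) h3)]
        · intro h3
          rw [e1.2 ((tr_injective a) h3)]
      inv_mem' := fun {a} ha h hh => by
        have hh' : a * h * a⁻¹ ∈ CC Q := by
          have := conj_mem hQ hh a⁻¹
          rwa [inv_inv] at this
        have e1 := ha _ hh'
        have e2 : tr (a * h * a⁻¹) (tr a S) = tr a (tr h S) := by
          rw [tr_tr, tr_tr]
          congr 1
          group
        have e3 : tr h (tr a⁻¹ S) = tr a⁻¹ (tr (a * h * a⁻¹) S) := by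
          rw [tr_tr, tr_tr]
          congr 1
          group
        rw [e2] at e1
        rw [e3]
        constructor
        · intro h3
          rw [e1.2 (by rw [h3])]
        · intro h3
          have h4 := (tr_injective a⁻¹) h3
          exact (tr_injective a) (e1.1 h4) }
  have hH : ∀ τ, tr τ S = S ∨ tr τ S = Sᶜ → τ ∈ H := by
    intro τ hτ h hh
    rcases hτ with e | e
    · rw [e]
    · rw [e, tr_compl, compl_inj_iff]
  obtain ⟨g, hg⟩ := ht S hS T hT
  have hgH : g ∈ H := by
    intro h hh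
    rw [hg]
    exact hcon h hh
  rcases hmax S hS H hH with h3 | h3
  · rcases h3 g hgH with e | e
    · exact h1 (hg.symm.trans e)
    · exact h2 (hg.symm.trans e)
  · obtain ⟨h, hh, ⟨S1, hS1, e1⟩, S2, hS2, e2⟩ := hex
    obtain ⟨g1, hg1⟩ := ht S hS S1 hS1
    obtain ⟨g2, hg2⟩ := ht S hS S2 hS2
    have m1 : g1 ∈ H := by rw [h3]; exact Subgroup.mem_top g1
    have m2 : g2 ∈ H := by rw [h3]; exact Subgroup.mem_top g2
    have f1 := m1 h hh
    have f2 := m2 h hh
    rw [hg1] at f1
    rw [hg2] at f2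
    have f3 := f2.1 (f1.2 e1)
    rw [e2] at f3
    exact ne_compl S2 f3.symm

/-- JOB C6 AFINE. -/
theorem afine : S_afine := by
  intro G _ _ c hc Q hQ ht hcp hhalf hmax hex
  classical
  have hsep := fun {S T : Set G} (hS : S ∈ Q) (hT : T ∈ Q) (h1 : T ≠ S) (h2 : T ≠ Sᶜ) =>
    sep hQ ht hmax hex hS hT h1 h2
  refine ⟨hQ, ht, hcp, hhalf, ?_, ?_⟩
  · -- the sums over normal subgroups
    intro M hMn hMf hMk F hF
    -- a nontrivial element of `M ⊓ CC Q`
    obtain ⟨h1, h1M, h1C, S1, hS1, e1⟩ : ∃ h1 ∈ M, h1 ∈ CC Q ∧ ∃ S1 ∈ Q, tr h1 S1 ≠ S1 := by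
      by_contra hcon
      push Not at hcon
      apply hMk
      intro h hh
      have key : ∀ S ∈ Q, tr h S = S ∨ tr h S = Sᶜ := by
        intro S hS
        by_contra hne
        push Not at hne
        obtain ⟨k, hk, hk2⟩ := hsep hS (hQ h S hS) hne.1 hne.2
        apply hk2
        have hz : k⁻¹ * (h⁻¹ * k * h) ∈ CC Q :=
          (CC Q).mul_mem ((CC Q).inv_mem hk) (conj_mem hQ hk h)
        have hzM : k⁻¹ * (h⁻¹ * k * h) ∈ M := by
          have a1 : k⁻¹ * h⁻¹ * k ∈ M := by
            have := hMn.conj_mem h⁻¹ (M.inv_mem hh) k⁻¹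
            rwa [inv_inv] at this
          have a2 := M.mul_mem a1 hh
          have a3 : k⁻¹ * (h⁻¹ * k * h) = k⁻¹ * h⁻¹ * k * h := by group
          rw [a3]
          exact a2
        have hfix := hcon _ hzM hz S hS
        have e2 : tr (h⁻¹ * k * h) S = tr k S := by
          have a4 : h⁻¹ * k * h = k * (k⁻¹ * (h⁻¹ * k * h)) := by group
          rw [a4, ← tr_tr, hfix]
        rw [tr_conj k h S, e2]
        constructor
        · intro h3
          rw [h3]
        · intro h3
          exact tr_injective h h3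
      intro S hS
      exact hcon h hh key S hS
    -- every element is flipped by an element of `M`
    have hflip : ∀ S ∈ Q, ∃ h0 ∈ M, tr h0 S = Sᶜ := by
      intro S hS
      by_contra hcon
      push Not at hcon
      have hfixS : ∀ h ∈ M, h ∈ CC Q → tr h S = S := by
        intro h hh hC
        rcases hC S hS with e | e
        · exact e
        · exact absurd e (hcon h hh)
      obtain ⟨g, hg⟩ := ht S hS S1 hS1
      apply e1
      rw [← hg, tr_conj h1 g S, hfixS _ ?_ (conj_mem hQ h1C g)]
      have := hMn.conj_mem h1 h1M g⁻¹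
      rwa [inv_inv] at this
    refine Submodule.span_induction (p := fun F _ => ∑ h : M, rtr h.1 F ∈ QQ c) ?_ ?_ ?_ ?_ hF
    · rintro _ ⟨S, hS, rfl⟩
      obtain ⟨h0, h0M, e0⟩ := hflip S hS
      have h2 : ∑ h : M, rtr h.1 (eps S) = -∑ h : M, rtr h.1 (eps S) := by
        conv_lhs => rw [← Equiv.sum_comp (Equiv.mulRight (⟨h0, h0M⟩ : M)) (fun h : M => rtr h.1 (eps S))]
        rw [← Finset.sum_neg_distrib]
        refine Finset.sum_congr rfl fun h _ => ?_
        show rtr (h.1 * h0) (eps S) = -rtr h.1 (eps S)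
        rw [← rtr_rtr, rtr_eps h0 S, e0, eps_compl', map_neg]
      have h3 : ∑ h : M, rtr h.1 (eps S) = 0 := by
        have h4 : (2 : ℚ) • ∑ h : M, rtr h.1 (eps S) = 0 := by
          rw [two_smul]
          nth_rewrite 2 [h2]
          exact add_neg_cancel _
        exact (smul_eq_zero.1 h4).resolve_left (by norm_num)
      rw [h3]
      exact Submodule.zero_mem _
    · simp only [map_zero, Finset.sum_const_zero]
      exact Submodule.zero_mem _
    · intro x y _ _ hx hy
      simp only [map_add, Finset.sum_add_distrib]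
      exact Submodule.add_mem _ hx hy
    · intro q x _ hx
      simp only [map_smul, ← Finset.smul_sum]
      exact Submodule.smul_mem _ _ hx
  · -- relations
    intro a hsupp hodd hFF x hx
    exfalso
    have hxQ : x ∈ Q := by
      by_contra h
      exact hx (hsupp x h)
    -- the projection
    let P : (G → ℚ) → (G → ℚ) := fun F => ∑ h : CC Q, sgn h.1 x • rtr h.1 F
    have hPF : P (FF a) = (2 * a x * Fintype.card (CC Q)) • eps x := by
      have e1 : P (FF a) = ∑ T : Set G, (a T * ∑ h : CC Q, sgn h.1 x * sgn h.1 T) • eps T := by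
        show ∑ h : CC Q, sgn h.1 x • rtr h.1 (FF a) = _
        have e2 : ∀ h : CC Q, sgn h.1 x • rtr h.1 (FF a) =
            ∑ T : Set G, (a T * (sgn h.1 x * sgn h.1 T)) • eps T := by
          intro h
          rw [FF_eq, map_sum, Finset.smul_sum]
          refine Finset.sum_congr rfl fun T _ => ?_
          by_cases hT : T ∈ Q
          · rw [map_smul, rtr_sgn h.2 hT, smul_smul, smul_smul]
            congr 1
            ring
          · rw [hsupp T hT, zero_smul, map_zero, smul_zero, zero_mul, zero_smul]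
        rw [Finset.sum_congr rfl (fun h _ => e2 h), Finset.sum_comm]
        refine Finset.sum_congr rfl fun T _ => ?_
        rw [← Finset.sum_smul, ← Finset.mul_sum]
      have e3 : ∀ T : Set G, T ∉ ({x, xᶜ} : Finset (Set G)) →
          (a T * ∑ h : CC Q, sgn h.1 x * sgn h.1 T) • eps T = 0 := by
        intro T hT
        rw [Finset.mem_insert, Finset.mem_singleton, not_or] at hT
        by_cases hTQ : T ∈ Q
        · obtain ⟨h0, h0C, h0n⟩ := hsep hxQ hTQ hT.1 hT.2
          have hs : sgn h0 x * sgn h0 T = -1 := by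
            rcases h0C x hxQ with f | f
            · rcases h0C T hTQ with f' | f'
              · exact absurd ⟨fun _ => f', fun _ => f⟩ h0n
              · rw [sgn_fix f, sgn_flip f']; norm_num
            · rcases h0C T hTQ with f' | f'
              · rw [sgn_flip f, sgn_fix f']; norm_num
              · exfalso
                apply h0n
                constructor
                · intro h5
                  rw [f] at h5
                  exact absurd h5.symm (ne_compl x)
                · intro h5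
                  rw [f'] at h5
                  exact absurd h5.symm (ne_compl T)
          have h2 : ∑ h : CC Q, sgn h.1 x * sgn h.1 T = -∑ h : CC Q, sgn h.1 x * sgn h.1 T := by
            conv_lhs => rw [← Equiv.sum_comp (Equiv.mulRight (⟨h0, h0C⟩ : CC Q))
              (fun h : CC Q => sgn h.1 x * sgn h.1 T)]
            rw [← Finset.sum_neg_distrib]
            refine Finset.sum_congr rfl fun h _ => ?_
            show sgn (h.1 * h0) x * sgn (h.1 * h0) T = -(sgn h.1 x * sgn h.1 T)
            rw [sgn_mul h.2 h0C hxQ, sgn_mul h.2 h0C hTQ]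
            linear_combination (sgn h.1 x * sgn h.1 T) * hs
          have h3 : ∑ h : CC Q, sgn h.1 x * sgn h.1 T = 0 := by linarith
          rw [h3, mul_zero, zero_smul]
        · rw [hsupp T hTQ, zero_mul, zero_smul]
      rw [e1, ← Finset.sum_subset (Finset.subset_univ ({x, xᶜ} : Finset (Set G)))
        (fun T _ hT => e3 T hT), Finset.sum_pair (ne_compl x)]
      have e4 : ∑ h : CC Q, sgn h.1 x * sgn h.1 x = Fintype.card (CC Q) := by
        rw [Finset.sum_congr rfl (fun h _ => sgn_sq h.1 x), Finset.sum_const, Finset.card_univ,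
          nsmul_eq_mul, mul_one]
      have e5 : ∑ h : CC Q, sgn h.1 x * sgn h.1 xᶜ = Fintype.card (CC Q) := by
        rw [← e4]
        refine Finset.sum_congr rfl fun h _ => ?_
        rw [sgn_compl]
      rw [e4, e5, hodd, eps_compl', smul_neg, ← neg_smul, ← add_smul]
      congr 1
      ring
    -- commutators act trivially on `QQ c`
    have hQQ : ∀ (g k : G) (F : G → ℚ), F ∈ QQ c → rtr (k⁻¹ * g⁻¹ * k * g) F = F := by
      intro g k F hF
      refine Submodule.span_induction (p := fun F _ => rtr (k⁻¹ * g⁻¹ * k * g) F = F)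
        ?_ ?_ ?_ ?_ hF
      · rintro _ ⟨N, hN, rfl⟩
        rw [rtr_eps]
        congr 1
        apply Imag.tr_mem (c := c)
        rw [hN.mul_mem_iff hc, hN.mul_mem_iff hc, hN.mul_mem_iff hc, N.inv_mem_iff, N.inv_mem_iff]
        tauto
      · exact map_zero _
      · intro x y _ _ hx hy
        rw [map_add, hx, hy]
      · intro q x _ hx
        rw [map_smul, hx]
    -- so they fix `x`
    have hfix : ∀ (g k : G), k ∈ CC Q → tr (k⁻¹ * g⁻¹ * k * g) x = x := by
      intro g k hk
      have hzC : k⁻¹ * g⁻¹ * k * g ∈ CC Q := by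
        have a1 : k⁻¹ * g⁻¹ * k * g = k⁻¹ * (g⁻¹ * k * g) := by group
        rw [a1]
        exact (CC Q).mul_mem ((CC Q).inv_mem hk) (conj_mem hQ hk g)
      have e1 : rtr (k⁻¹ * g⁻¹ * k * g) (P (FF a)) = P (FF a) := by
        show rtr (k⁻¹ * g⁻¹ * k * g) (∑ h : CC Q, sgn h.1 x • rtr h.1 (FF a)) =
          ∑ h : CC Q, sgn h.1 x • rtr h.1 (FF a)
        rw [map_sum]
        refine Finset.sum_congr rfl fun h _ => ?_
        rw [map_smul, rtr_rtr]
        congr 1
        have a2 : k⁻¹ * g⁻¹ * k * g * h.1 = h.1 * ((h.1⁻¹ * k * h.1)⁻¹ * (h.1⁻¹ * g * h.1)⁻¹ *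
            (h.1⁻¹ * k * h.1) * (h.1⁻¹ * g * h.1)) := by group
        rw [a2, ← rtr_rtr, hQQ _ _ _ hFF]
      rw [hPF, map_smul] at e1
      have hne : (2 * a x * (Fintype.card (CC Q) : ℚ)) ≠ 0 := by
        have : (Fintype.card (CC Q) : ℚ) ≠ 0 := by exact_mod_cast Fintype.card_ne_zero
        exact mul_ne_zero (mul_ne_zero two_ne_zero hx) this
      have e2 : rtr (k⁻¹ * g⁻¹ * k * g) (eps x) = eps x := smul_right_injective _ hne e1
      rcases hzC x hxQ with e | e
      · exact e
      · exfalso
        rw [rtr_eps, e, eps_compl'] at e2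
        have e3 := congrFun e2 1
        rw [Pi.neg_apply] at e3
        rcases eps_cases x 1 with e4 | e4 <;> rw [e4] at e3 <;> norm_num at e3
    -- all elements have the same signs
    have hsame : ∀ (g k : G), k ∈ CC Q → (tr k x = x ↔ tr k (tr g x) = tr g x) := by
      intro g k hk
      have e2 : tr (g⁻¹ * k * g) x = tr k x := by
        have a4 : g⁻¹ * k * g = k * (k⁻¹ * g⁻¹ * k * g) := by group
        rw [a4, ← tr_tr, hfix g k hk]
      rw [tr_conj k g x, e2]
      constructor
      · intro h3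
        rw [h3]
      · intro h3
        exact tr_injective g h3
    obtain ⟨h, hh, ⟨S1, hS1, e1⟩, S2, hS2, e2⟩ := hex
    obtain ⟨g1, hg1⟩ := ht x hxQ S1 hS1
    obtain ⟨g2, hg2⟩ := ht x hxQ S2 hS2
    have f1 := hsame g1 h hh
    have f2 := hsame g2 h hh
    rw [hg1] at f1
    rw [hg2] at f2
    have f3 := f2.1 (f1.2 e1)
    rw [e2] at f3
    exact ne_compl S2 f3.symm

end

end Pool.Agent.Q14.D3H
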