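import Pool.Agent.Q60.D3H.StmC

/-!
# Project D3H, job C7 FPART: the parts of a relation
-/

namespace Pool.Agent.Q14.D3H

open Module Pool.Agent.W547.LD Pool.Agent.W547.LD.Comb Pool.Agent.Q60.D3G Pool.Agent.Q60.D3H

/-- JOB C7 FPART. -/
theorem fpart (h6 : S_sep) (hpair : S_pair) : S_fpart := by
  intro G _ _ c hc O hO hdisj hker P hPO a ha
  classical
  by_contra hcon
  push Not at hcon
  let B : Finset (Set (Set G)) := O.filter fun Q => FF (aQ a Q) ∉ QQ c
  have hB : B.Nonempty := by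
    obtain ⟨Q, hQ, h⟩ := hcon
    exact ⟨Q, Finset.mem_filter.2 ⟨hQ, h⟩⟩
  obtain ⟨K, hKB, hmin⟩ := Finset.exists_min_image B (fun Q => Nat.card (kerP Q)) hB
  obtain ⟨hK, hKn⟩ := Finset.mem_filter.1 hKB
  have hsuppQ : ∀ Q, ∀ S, S ∉ Q → aQ a Q S = 0 := fun Q S hS => if_neg hS
  have hlarge : ∀ Q ∈ B, 2 < Q.ncard := by
    intro Q hQ
    obtain ⟨hQO, hQn⟩ := Finset.mem_filter.1 hQ
    by_contra h
    push Not at h
    have h1 := hO Q hQO
    exact hQn (VV_le_QQ hc h1.stable h1.compl h1.half h (FF_mem_VV (hsuppQ Q)))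
  have hBO : ∀ Q ∈ B, Q ∈ O := fun Q hQ => (Finset.mem_filter.1 hQ).1
  let T : Finset (Set (Set G)) := B.filter fun Q => kerP Q = kerP K
  have hTB : ∀ Q ∈ T, Q ∈ B := fun Q hQ => (Finset.mem_filter.1 hQ).1
  have hTk : ∀ Q ∈ T, kerP Q = kerP K := fun Q hQ => (Finset.mem_filter.1 hQ).2
  have hKT : K ∈ T := Finset.mem_filter.2 ⟨hKB, rfl⟩
  let P' : Set (Set G) := {S | ∃ Q ∈ T, S ∈ Q}
  have hP'st : Stable P' := by
    rintro τ S ⟨Q, hQ, hS⟩
    exact ⟨Q, hQ, (hO Q (hBO Q (hTB Q hQ))).stable τ S hS⟩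
  have hVQ : ∀ Q ∈ T, VV Q ≤ VV P' := by
    intro Q hQ
    refine Submodule.span_mono ?_
    rintro _ ⟨S, hS, rfl⟩
    exact ⟨S, ⟨Q, hQ, hS⟩, rfl⟩
  -- the sum over the orbits with the smallest kernel
  have hmain : ∑ Q ∈ T, FF (aQ a Q) ∈ QQ c := by
    refine h6 G c hc (VV P') (fun g F hF => rtr_mem_VV hP'st g hF) (Set (Set G))
      (B \ T) kerP ?_ ?_ (∑ Q ∈ T, FF (aQ a Q)) (fun Q => FF (aQ a Q)) ?_ ?_ ?_
    · intro Q hQ
      exact kerP_normal (hO Q (hBO Q (Finset.mem_sdiff.1 hQ).1)).stable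
    · intro Q hQ _ F hF
      obtain ⟨hQB, hQT⟩ := Finset.mem_sdiff.1 hQ
      have hnorm : (kerP Q).Normal := kerP_normal (hO Q (hBO Q hQB)).stable
      refine Submodule.span_induction (p := fun F _ => ∑ h : kerP Q, rtr h.1 F ∈ QQ c)
        ?_ ?_ ?_ ?_ hF
      · rintro _ ⟨S, ⟨Q', hQ', hS⟩, rfl⟩
        have hQ'O := hO Q' (hBO Q' (hTB Q' hQ'))
        refine hQ'O.sum (kerP Q) ?_ (eps S) (Submodule.subset_span ⟨S, hS, rfl⟩)
        intro h1
        apply hQT
        rw [hTk Q' hQ'] at h1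
        have h2 := hmin Q hQB
        exact Finset.mem_filter.2 ⟨hQB, Subgroup.eq_of_le_of_card_ge h1 h2⟩
      · simp only [map_zero, Finset.sum_const_zero]
        exact Submodule.zero_mem _
      · intro x y _ _ hx hy
        simp only [map_add, Finset.sum_add_distrib]
        exact Submodule.add_mem _ hx hy
      · intro q x _ hx
        simp only [map_smul, ← Finset.smul_sum]
        exact Submodule.smul_mem _ _ hx
    · refine Submodule.sum_mem _ fun Q hQ => ?_
      exact hVQ Q hQ (FF_mem_VV (hsuppQ Q))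
    · intro Q hQ τ hτ
      rw [rtr_FF]
      congr 1
      funext S
      unfold aQ
      by_cases hS : S ∈ Q
      · have h1 : tr τ⁻¹ S = S := (kerP Q).inv_mem hτ S hS
        rw [h1]
      · rw [if_neg hS, if_neg]
        intro h
        apply hS
        have h1 := hτ _ h
        rw [tr_tr_inv] at h1
        rwa [← h1] at h
    · have h1 := sum_FF O hdisj hPO ha
      rw [← Finset.sum_filter_add_sum_filter_not O (fun Q => FF (aQ a Q) ∉ QQ c)] at h1
      have h2 : ∑ Q ∈ O.filter (fun Q => ¬ FF (aQ a Q) ∉ QQ c), FF (aQ a Q) ∈ QQ c := by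
        refine Submodule.sum_mem _ fun Q hQ => ?_
        exact not_not.1 (Finset.mem_filter.1 hQ).2
      have h3 : ∑ Q ∈ T, FF (aQ a Q) + ∑ Q ∈ B \ T, FF (aQ a Q) = ∑ Q ∈ B, FF (aQ a Q) := by
        rw [add_comm]
        exact Finset.sum_sdiff (Finset.filter_subset _ _)
      have h4 : ∑ Q ∈ B, FF (aQ a Q) = -∑ Q ∈ O.filter (fun Q => ¬ FF (aQ a Q) ∉ QQ c),
          FF (aQ a Q) := eq_neg_of_add_eq_zero_left h1
      change ∑ Q ∈ T, FF (aQ a Q) + ∑ Q ∈ B \ T, FF (aQ a Q) ∈ QQ c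
      rw [h3, h4]
      exact Submodule.neg_mem _ h2
  by_cases hT1 : ∃ K' ∈ T, K' ≠ K
  · obtain ⟨K', hK', hne⟩ := hT1
    have h1 : T = {K, K'} := by
      ext Q
      rw [Finset.mem_insert, Finset.mem_singleton]
      constructor
      · intro hQ
        have h2 := hker.three K hK K' (hBO K' (hTB K' hK')) Q (hBO Q (hTB Q hQ)) (hlarge K hKB)
          (hlarge K' (hTB K' hK')) (hlarge Q (hTB Q hQ)) (hTk K' hK').symm
          ((hTk K' hK').trans (hTk Q hQ).symm)
        rcases h2 with h2 | h2 | h2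
        · exact absurd h2.symm hne
        · exact Or.inr h2.symm
        · exact Or.inl h2.symm
      · rintro (rfl | rfl)
        · exact hKT
        · exact hK'
    rw [h1, Finset.sum_pair hne.symm] at hmain
    have hK'O := hBO K' (hTB K' hK')
    have c1 : K.ncard ≤ 6 := by
      by_contra h
      push Not at h
      exact hne (hker.two K hK K' hK'O h (hlarge K' (hTB K' hK')) (hTk K' hK').symm).symm
    have c2 : K'.ncard ≤ 6 := by
      by_contra h
      push Not at h
      exact hne (hker.two K' hK'O K hK h (hlarge K hKB) (hTk K' hK'))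
    have o1 : IsOrbit c K :=
      { stable := (hO K hK).stable, trans := (hO K hK).trans, compl := (hO K hK).compl,
        half := (hO K hK).half, card := c1 }
    have o2 : IsOrbit c K' :=
      { stable := (hO K' hK'O).stable, trans := (hO K' hK'O).trans, compl := (hO K' hK'O).compl,
        half := (hO K' hK'O).half, card := c2 }
    exact hKn (hpair G c hc K K' o1 o2 hne.symm
      (hlarge K hKB) (hlarge K' (hTB K' hK')) _ (FF_mem_VV (hsuppQ K)) _
      (FF_mem_VV (hsuppQ K')) hmain)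
  · push Not at hT1
    have h1 : T = {K} := by
      ext Q
      rw [Finset.mem_singleton]
      exact ⟨fun hQ => hT1 Q hQ, fun hQ => by rw [hQ]; exact hKT⟩
    rw [h1, Finset.sum_singleton] at hmain
    exact hKn hmain

end Pool.Agent.Q14.D3H
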